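import Mathlib
import Pool.Agent.Helper81.SumDual.Base

/-!
# The space `L₁ + L_∞` on `(0, ∞)` is not isomorphic to a dual space

All spaces are real.  `sumSet` is the set of all classes of measurable functions on `(0, ∞)` of the
form `u + v` with `u` integrable and `v` essentially bounded, and `sumNorm` is the norm
`inf {‖u‖₁ + ‖v‖_∞ : x = u + v}` on it.
-/

open MeasureTheory

namespace Pool.Agent.Results.MP_ec556a_an.NotDual

open Pool.Agent.Helper81.SumDual

/-- Lebesgue measure on the half line `(0, ∞)`. -/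
noncomputable abbrev leb : Measure ℝ := volume.restrict (Set.Ioi 0)

/-- `L₁ + L_∞` on `(0, ∞)`, as a set of classes of measurable functions. -/
def sumSet : Set (ℝ →ₘ[leb] ℝ) := {x | ∃ (u : Lp ℝ 1 leb) (v : Lp ℝ ⊤ leb), x = u + v}

/-- The norm of `L₁ + L_∞`. -/
noncomputable def sumNorm (x : ℝ →ₘ[leb] ℝ) : ℝ :=
  sInf {r : ℝ | ∃ (u : Lp ℝ 1 leb) (v : Lp ℝ ⊤ leb), x = u + v ∧ r = ‖u‖ + ‖v‖}

/-- **The space `L₁ + L_∞` on `(0, ∞)` is not isomorphic to a dual space.**  There is no real normed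
space `Y` (in particular no real Banach space) such that some linear map sends the dual of `Y` onto
`L₁ + L_∞` and is bounded above and below with respect to the norms. -/
theorem result (Y : Type*) [NormedAddCommGroup Y] [NormedSpace ℝ Y] :
    ¬ ∃ (e : StrongDual ℝ Y →ₗ[ℝ] (ℝ →ₘ[leb] ℝ)) (c C : ℝ), 0 < c ∧ Set.range e = sumSet ∧
      ∀ φ, c * ‖φ‖ ≤ sumNorm (e φ) ∧ sumNorm (e φ) ≤ C * ‖φ‖ := by
  rintro ⟨e, c, C, hc, hr, hb⟩
  have hmem : ∀ φ, e φ ∈ sumSubmodule leb := by
    intro φ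
    have h1 : e φ ∈ sumSet := by rw [← hr]; exact ⟨φ, rfl⟩
    obtain ⟨u, v, h2⟩ := h1
    rw [h2]
    exact (sumSubmodule leb).add_mem (mem_of_L1 u) (mem_of_Linf v)
  let e' : StrongDual ℝ Y →ₗ[ℝ] SumSpace leb := LinearMap.codRestrict (sumSubmodule leb) e hmem
  have hn : ∀ φ, ‖e' φ‖ = sumNorm (e φ) := by
    intro φ
    rw [SumSpace.norm_eq]
    unfold sumNorm
    congr 1
  have hinj : Function.Injective e' := by
    rw [injective_iff_map_eq_zero]
    intro φ hφ
    have h1 := (hb φ).1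
    rw [← hn, hφ, norm_zero] at h1
    have h2 : ‖φ‖ ≤ 0 := by
      by_contra h
      push Not at h
      have := mul_pos hc h
      linarith
    exact norm_le_zero_iff.mp h2
  have hsurj : Function.Surjective e' := by
    intro y
    have h1 : SumSpace.val y ∈ sumSet := by
      obtain ⟨u, v, h, _⟩ := SumSpace.exists_decomp y one_pos
      exact ⟨u, v, h⟩
    rw [← hr] at h1
    obtain ⟨φ, hφ⟩ := h1
    refine ⟨φ, SumSpace.val_injective ?_⟩
    exact hφ
  let E : StrongDual ℝ Y ≃ₗ[ℝ] SumSpace leb := LinearEquiv.ofBijective e' ⟨hinj, hsurj⟩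
  let E' : StrongDual ℝ Y ≃L[ℝ] SumSpace leb := E.toContinuousLinearEquivOfBounds C c⁻¹
    (fun φ => by
      show ‖e' φ‖ ≤ C * ‖φ‖
      rw [hn]; exact (hb φ).2)
    (fun y => by
      obtain ⟨φ, rfl⟩ := E.surjective y
      rw [LinearEquiv.symm_apply_apply]
      show ‖φ‖ ≤ c⁻¹ * ‖e' φ‖
      rw [hn, ← div_eq_inv_mul, le_div_iff₀ hc, mul_comm]
      exact (hb φ).1)
  exact main E'

end Pool.Agent.Results.MP_ec556a_an.NotDual
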